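import Mathlib
import Pool.Graph.R_seed8.Results.MP_27f3b7_al.LargestCycle

/-!
# Affine maps of residually (finite nilpotent) groups

Let `G` be a group, finite or infinite, in which every nontrivial element survives in a finite
nilpotent quotient, and let `A x = t α(x) s` with an endomorphism `α` of `G`. If the sequence of the
iterates of `A` is eventually periodic with least period `m`, then some point lies on a cycle of `A`
of length `m`.
-/

set_option autoImplicit false
set_option linter.all false

namespace Pool.Agent.Results.MP_27f3b7_al.ResiduallyNilpotent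

open Function

/-- Every nontrivial element of `G` has a nontrivial image in some finite nilpotent group. -/
def ResFinNilpotent (G : Type*) [Group G] : Prop :=
  ∀ g : G, g ≠ 1 → ∃ (Q : Type) (_ : Group Q), Finite Q ∧ Group.IsNilpotent Q ∧
    ∃ f : G →* Q, f g ≠ 1

/-- The bijective case: an affine permutation of a residually finite nilpotent group, of order `m`. -/
theorem bijective_case {H : Type*} [Group H] (hH : ResFinNilpotent H) (β : MulAut H) (τ : H)
    (B : H → H) (hB : ∀ x, B x = τ * β x) (m : ℕ) (hm : 0 < m) (h1 : B^[m] = id)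
    (h2 : ∀ j, 0 < j → j < m → B^[j] ≠ id) : ∃ x, minimalPeriod B x = m := by
  classical
  -- the linear part has order dividing `m`
  have hlin : ∀ (k : ℕ) (x y : H), B^[k] (x * y) = B^[k] x * (β ^ k) y := by
    intro k
    induction k with
    | zero => intro x y; simp
    | succ k ih =>
      intro x y
      rw [iterate_succ_apply', iterate_succ_apply', ih, hB, hB, map_mul, pow_succ', mul_assoc]
      rfl
  have hβ : β ^ m = 1 := by
    ext y
    have := hlin m 1 y
    rw [h1] at this
    simpa using this.symm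
  -- witnesses
  have hw : ∀ j : {j : ℕ // 0 < j ∧ j < m}, ∃ (Q : Type) (_ : Group Q), Finite Q ∧
      Group.IsNilpotent Q ∧ ∃ (f : H →* Q) (h : H), f (h⁻¹ * B^[j.1] h) ≠ 1 := by
    intro j
    have h3 := h2 j.1 j.2.1 j.2.2
    obtain ⟨h, hh⟩ : ∃ h, B^[j.1] h ≠ h := by
      by_contra hcon
      push Not at hcon
      exact h3 (funext hcon)
    obtain ⟨Q, _, h4, h5, f, hf⟩ := hH (h⁻¹ * B^[j.1] h) (fun hc => hh (by
      have := inv_mul_eq_one.1 hc
      exact this.symm))
    exact ⟨Q, inferInstance, h4, h5, f, h, hf⟩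
  choose Q iQ finQ nilQ f h hf using hw
  letI := iQ
  haveI := finQ
  haveI := nilQ
  haveI hJ : Finite {j : ℕ // 0 < j ∧ j < m} :=
    Finite.of_injective (fun j => (⟨j.1, j.2.2⟩ : Fin m)) (fun a b hab => by
      have := congrArg Fin.val hab
      exact Subtype.ext this)
  haveI hZ : Finite (Subgroup.zpowers β) := by
    have : IsOfFinOrder β := isOfFinOrder_iff_pow_eq_one.2 ⟨m, hm, hβ⟩
    exact (finite_zpowers.2 this).to_subtype
  let gen : Subgroup.zpowers β := ⟨β, Subgroup.mem_zpowers β⟩
  let F : H →* (∀ (_ : Subgroup.zpowers β) (j : {j : ℕ // 0 < j ∧ j < m}), Q j) :=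
    { toFun := fun x i j => f j ((i : MulAut H) x)
      map_one' := by
        funext i j
        simp
      map_mul' := by
        intro x y
        funext i j
        simp }
  let σ : (∀ (_ : Subgroup.zpowers β) (j : {j : ℕ // 0 < j ∧ j < m}), Q j) →*
      (∀ (_ : Subgroup.zpowers β) (j : {j : ℕ // 0 < j ∧ j < m}), Q j) :=
    { toFun := fun p i j => p (i * gen) j
      map_one' := rfl
      map_mul' := fun _ _ => rfl }
  have hσ : ∀ x, σ (F x) = F (β x) := by
    intro x
    rfl
  have hσinj : Injective σ := by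
    intro p q hpq
    funext i j
    have := congrFun (congrFun hpq (i * gen⁻¹)) j
    simpa [σ] using this
  -- the image
  have hmem : ∀ x : F.range, σ x.1 ∈ F.range := by
    rintro ⟨_, y, rfl⟩
    exact ⟨β y, (hσ y).symm⟩
  let σR : F.range →* F.range :=
    { toFun := fun x => ⟨σ x.1, hmem x⟩
      map_one' := Subtype.ext (map_one σ)
      map_mul' := fun x y => Subtype.ext (map_mul σ x.1 y.1) }
  have hσR : Injective σR := fun x y hxy => Subtype.ext (hσinj (congrArg Subtype.val hxy))
  have hσRb : Bijective σR := Finite.injective_iff_bijective.1 hσR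
  let αR : MulAut F.range := MulEquiv.ofBijective σR hσRb
  let tR : F.range := ⟨F τ, τ, rfl⟩
  let AR : Equiv.Perm F.range := αR.toEquiv.trans (Equiv.mulLeft tR)
  have hAR : ∀ x, AR x = tR * αR x := fun x => rfl
  obtain ⟨z, hz⟩ := Pool.Agent.Results.MP_27f3b7_al.LargestCycle.result αR tR AR hAR
  obtain ⟨_, x, rfl⟩ := z
  let FR : H → F.range := fun x => ⟨F x, x, rfl⟩
  have hsemi : Semiconj FR B AR := by
    intro y
    rw [hAR]
    apply Subtype.ext
    show F (B y) = F τ * σ (F y)
    rw [hB, map_mul, hσ]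
  refine ⟨x, ?_⟩
  set d := minimalPeriod B x with hd
  have hdm : d ∣ m := by
    apply IsPeriodicPt.minimalPeriod_dvd
    show B^[m] x = x
    rw [h1]; rfl
  have hd0 : 0 < d := Nat.pos_of_dvd_of_pos hdm hm
  have hdle : d ≤ m := Nat.le_of_dvd hm hdm
  by_contra hne
  have hdlt : d < m := lt_of_le_of_ne hdle hne
  have h5 : AR^[d] (FR x) = FR x := by
    rw [← (hsemi.iterate_right d) x]
    have : B^[d] x = x := isPeriodicPt_minimalPeriod B x
    rw [this]
  have h6 : orderOf AR ∣ d := by
    rw [← hz]
    exact IsPeriodicPt.minimalPeriod_dvd h5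
  have h7 : ∀ y, AR^[d] y = y := by
    intro y
    have h8 : AR ^ d = 1 := orderOf_dvd_iff_pow_eq_one.1 h6
    rw [Equiv.Perm.iterate_eq_pow, h8]
    rfl
  let jd : {j : ℕ // 0 < j ∧ j < m} := ⟨d, hd0, hdlt⟩
  have h9 : FR (B^[d] (h jd)) = FR (h jd) := by
    rw [(hsemi.iterate_right d) (h jd)]
    exact h7 _
  have h10 : F (B^[d] (h jd)) = F (h jd) := congrArg Subtype.val h9
  apply hf jd
  have h11 := congrFun (congrFun h10 1) jd
  have h12 : f jd (B^[d] (h jd)) = f jd (h jd) := h11
  rw [map_mul, map_inv]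
  show (f jd (h jd))⁻¹ * f jd (B^[d] (h jd)) = 1
  rw [h12, inv_mul_cancel]

/-- The general case. -/
theorem main {G : Type*} [Group G] (hG : ResFinNilpotent G) (α : G →* G) (t s : G) (A : G → G)
    (hA : ∀ x, A x = t * α x * s) (k m : ℕ) (hm : 0 < m) (h1 : A^[k + m] = A^[k])
    (h2 : ∀ j, 0 < j → j < m → A^[k + j] ≠ A^[k]) : ∃ x, minimalPeriod A x = m := by
  classical
  -- translations on the left only
  obtain ⟨u, γ, hA⟩ : ∃ (u : G) (γ : G →* G), ∀ x, A x = u * γ x := by
    refine ⟨t * s, (MulAut.conj s⁻¹).toMonoidHom.comp α, fun x => ?_⟩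
    rw [hA]
    simp [MulAut.conj_apply, mul_assoc]
  -- iterates
  have hlin : ∀ (n : ℕ) (x : G), A^[n] x = A^[n] 1 * γ^[n] x := by
    intro n
    induction n with
    | zero => intro x; simp
    | succ n ih =>
      intro x
      rw [iterate_succ_apply', ih, hA, map_mul, iterate_succ_apply', iterate_succ_apply' (f := γ),
        hA, mul_assoc]
  have hγ : ∀ x, γ^[k + m] x = γ^[k] x := by
    intro x
    have h3 := congrFun h1 x
    rw [hlin (k + m) x, hlin k x, h1] at h3
    exact mul_left_cancel h3
  have hγmul : ∀ (n : ℕ) (x y : G), γ^[n] (x * y) = γ^[n] x * γ^[n] y := by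
    intro n
    induction n with
    | zero => intro x y; rfl
    | succ n ih => intro x y; rw [iterate_succ_apply', ih, map_mul, iterate_succ_apply',
        iterate_succ_apply']
  -- the stable image
  let γk : G →* G :=
    { toFun := γ^[k]
      map_one' := by
        have := hγmul k 1 1
        rw [mul_one] at this
        exact (left_eq_mul.1 this)
      map_mul' := hγmul k }
  let H : Subgroup G := γk.range
  have hHmem : ∀ x : H, γ x.1 ∈ H := by
    rintro ⟨_, y, rfl⟩
    refine ⟨γ y, ?_⟩
    show γ^[k] (γ y) = γ (γ^[k] y)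
    rw [← iterate_succ_apply, iterate_succ_apply']
  let γH : H →* H :=
    { toFun := fun x => ⟨γ x.1, hHmem x⟩
      map_one' := Subtype.ext (map_one γ)
      map_mul' := fun x y => Subtype.ext (map_mul γ x.1 y.1) }
  have hγHit : ∀ (n : ℕ) (x : H), (γH^[n] x).1 = γ^[n] x.1 := by
    intro n
    induction n with
    | zero => intro x; rfl
    | succ n ih => intro x; rw [iterate_succ_apply', iterate_succ_apply', ← ih]; rfl
  have hγm : γH^[m] = id := by
    funext x
    apply Subtype.ext
    rw [hγHit]
    obtain ⟨_, y, rfl⟩ := x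
    show γ^[m] (γ^[k] y) = γ^[k] y
    rw [← iterate_add_apply, add_comm, hγ]
  have hγbij : Bijective γH := by
    obtain ⟨n, rfl⟩ : ∃ n, m = n + 1 := ⟨m - 1, by omega⟩
    constructor
    · intro x y hxy
      have h3 : γH^[n + 1] x = γH^[n + 1] y := by
        rw [iterate_succ_apply, iterate_succ_apply, hxy]
      rw [hγm] at h3
      exact h3
    · intro x
      refine ⟨γH^[n] x, ?_⟩
      rw [← iterate_succ_apply' (f := γH), hγm]
      rfl
  let β : MulAut H := MulEquiv.ofBijective γH hγbij
  -- the base point of the coset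
  set b : G := A^[k] 1 with hb
  have hτ : b⁻¹ * A b ∈ H := by
    refine ⟨u, ?_⟩
    have h4 : A b = b * γ^[k] u := by
      rw [hb, ← iterate_succ_apply' (f := A), iterate_succ_apply, hA, map_one, mul_one, hlin k u]
    rw [h4, inv_mul_cancel_left]
    rfl
  let τ : H := ⟨b⁻¹ * A b, hτ⟩
  let B : H → H := fun x => τ * β x
  have hAmul : ∀ x y, A (x * y) = A x * γ y := by
    intro x y
    rw [hA, hA, map_mul, mul_assoc]
  have hBA : ∀ x : H, b * (B x).1 = A (b * x.1) := by
    intro x
    rw [hAmul]
    show b * (b⁻¹ * A b * γ x.1) = A b * γ x.1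
    group
  have hBAn : ∀ (n : ℕ) (x : H), b * (B^[n] x).1 = A^[n] (b * x.1) := by
    intro n
    induction n with
    | zero => intro x; rfl
    | succ n ih => intro x; rw [iterate_succ_apply', iterate_succ_apply', hBA, ih]
  have hH : ResFinNilpotent H := by
    intro g hg
    obtain ⟨Q, _, h3, h4, f, hf⟩ := hG g.1 (fun hc => hg (Subtype.ext hc))
    exact ⟨Q, inferInstance, h3, h4, f.comp H.subtype, hf⟩
  have hcoset : ∀ x : H, ∃ y, b * x.1 = A^[k] y := by
    rintro ⟨_, y, rfl⟩
    exact ⟨y, (hlin k y).symm⟩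
  obtain ⟨x, hx⟩ := bijective_case hH β τ B (fun _ => rfl) m hm (by
    funext x
    apply Subtype.ext
    apply mul_left_cancel (a := b)
    rw [hBAn]
    obtain ⟨y, hy⟩ := hcoset x
    rw [hy, ← iterate_add_apply, add_comm, h1]
    exact hy.symm) (by
    intro j hj1 hj2 hcon
    apply h2 j hj1 hj2
    funext y
    have h5 := hBAn j ⟨γ^[k] y, y, rfl⟩
    rw [hcon] at h5
    have h6 : b * γ^[k] y = A^[k] y := (hlin k y).symm
    rw [add_comm, iterate_add_apply, ← h6]
    exact h5.symm)
  refine ⟨b * x.1, ?_⟩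
  rw [← hx]
  have hiff : ∀ n, IsPeriodicPt A n (b * x.1) ↔ IsPeriodicPt B n x := by
    intro n
    unfold IsPeriodicPt IsFixedPt
    rw [← hBAn]
    constructor
    · intro h3
      exact Subtype.ext (mul_left_cancel h3)
    · intro h3
      rw [h3]
  apply Nat.dvd_antisymm
  · exact IsPeriodicPt.minimalPeriod_dvd ((hiff _).2 (isPeriodicPt_minimalPeriod B x))
  · exact IsPeriodicPt.minimalPeriod_dvd ((hiff _).1 (isPeriodicPt_minimalPeriod A _))

/-- Subgroups of products of finite nilpotent groups are residually finite nilpotent. -/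
theorem resFinNilpotent_of_injective {G : Type*} [Group G] {ι : Type*} (Q : ι → Type)
    [∀ i, Group (Q i)] [∀ i, Finite (Q i)] [∀ i, Group.IsNilpotent (Q i)] (f : G →* ∀ i, Q i)
    (hf : Injective f) : ResFinNilpotent G := by
  intro g hg
  obtain ⟨i, hi⟩ : ∃ i, f g i ≠ 1 := by
    by_contra hcon
    push Not at hcon
    apply hg
    apply hf
    rw [map_one]
    exact funext hcon
  exact ⟨Q i, inferInstance, inferInstance, inferInstance, (Pi.evalMonoidHom Q i).comp f, hi⟩

/-- All periods divide the largest one, for every affine endomorphism of a finite nilpotent group. -/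
theorem finite_case (G : Type) [Group G] [Finite G] [Group.IsNilpotent G] (α : G →* G) (t s : G)
    (A : G → G) (hA : ∀ x, A x = t * α x * s) :
    ∃ x, 0 < minimalPeriod A x ∧ ∀ y, y ∈ periodicPts A →
      minimalPeriod A y ∣ minimalPeriod A x := by
  classical
  have hex : ∃ k m, 0 < m ∧ A^[k + m] = A^[k] := by
    obtain ⟨a, b, hab, h⟩ := Finite.exists_ne_map_eq_of_infinite (fun n : ℕ => A^[n])
    rcases lt_or_gt_of_ne hab with h1 | h1
    · exact ⟨a, b - a, by omega, by rw [show a + (b - a) = b by omega]; exact h.symm⟩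
    · exact ⟨b, a - b, by omega, by rw [show b + (a - b) = a by omega]; exact h⟩
  obtain ⟨k, hk⟩ := hex
  have hm1 := (Nat.find_spec hk).1
  have hm2 := (Nat.find_spec hk).2
  have hG : ResFinNilpotent G := fun g hg =>
    ⟨G, inferInstance, inferInstance, inferInstance, MonoidHom.id G, hg⟩
  obtain ⟨x, hx⟩ := main hG α t s A hA k (Nat.find hk) hm1 hm2 (fun j hj1 hj2 hcon =>
    Nat.find_min hk hj2 ⟨hj1, hcon⟩)
  refine ⟨x, by rw [hx]; exact hm1, ?_⟩
  rintro y ⟨d, hd, hy⟩
  rw [hx]
  apply IsPeriodicPt.minimalPeriod_dvd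
  show A^[Nat.find hk] y = y
  have h3 : A^[k] (A^[Nat.find hk] y) = A^[k] y := by
    rw [← iterate_add_apply, hm2]
  have h4 : A^[d * k] y = y := hy.mul_const k
  have h5 : d * k = (d * k - k) + k := by
    have : k ≤ d * k := Nat.le_mul_of_pos_left k hd
    omega
  have h6 : A^[d * k] (A^[Nat.find hk] y) = A^[d * k] y := by
    rw [h5, iterate_add_apply, iterate_add_apply _ _ _ y, h3]
  rw [← iterate_add_apply, add_comm, iterate_add_apply, h4] at h6
  exact h6

/-- **Theorem.** -/
theorem result :
    -- arbitrary affine endomorphisms of residually finite nilpotent groups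
    (∀ (G : Type) [Group G], ResFinNilpotent G → ∀ (α : G →* G) (t s : G) (A : G → G),
      (∀ x, A x = t * α x * s) → ∀ k m : ℕ, 0 < m → A^[k + m] = A^[k] →
      (∀ j, 0 < j → j < m → A^[k + j] ≠ A^[k]) → ∃ x, minimalPeriod A x = m) ∧
    -- affine permutations of finite order
    (∀ (G : Type) [Group G], ResFinNilpotent G → ∀ (α : G ≃* G) (t s : G) (A : Equiv.Perm G),
      (∀ x, A x = t * α x * s) → 0 < orderOf A → ∃ x, minimalPeriod A x = orderOf A) ∧
    -- affine endomorphisms of finite nilpotent groups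
    (∀ (G : Type) [Group G] [Finite G] [Group.IsNilpotent G] (α : G →* G) (t s : G) (A : G → G),
      (∀ x, A x = t * α x * s) → ∃ x, 0 < minimalPeriod A x ∧ ∀ y, y ∈ periodicPts A →
        minimalPeriod A y ∣ minimalPeriod A x) ∧
    -- examples: all groups which embed in a product of finite nilpotent groups
    (∀ (G : Type) [Group G] (ι : Type) (Q : ι → Type) [∀ i, Group (Q i)] [∀ i, Finite (Q i)]
      [∀ i, Group.IsNilpotent (Q i)] (f : G →* ∀ i, Q i), Injective f → ResFinNilpotent G) := by
  refine ⟨?_, ?_, ?_, ?_⟩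
  · intro G _ hG α t s A hA k m hm h1 h2
    exact main hG α t s A hA k m hm h1 h2
  · intro G _ hG α t s A hA hpos
    refine main hG α.toMonoidHom t s A hA 0 (orderOf A) hpos ?_ ?_
    · rw [zero_add]
      funext x
      show (A : G → G)^[orderOf A] x = x
      rw [Equiv.Perm.iterate_eq_pow, pow_orderOf_eq_one]
      rfl
    · intro j hj1 hj2 hcon
      rw [zero_add] at hcon
      have h3 : A ^ j = 1 := by
        ext x
        rw [← Equiv.Perm.iterate_eq_pow, hcon]
        rfl
      exact absurd (Nat.le_of_dvd hj1 (orderOf_dvd_of_pow_eq_one h3)) (by omega)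
  · intro G _ _ _ α t s A hA
    exact finite_case G α t s A hA
  · intro G _ ι Q _ _ _ f hf
    exact resFinNilpotent_of_injective Q f hf

end Pool.Agent.Results.MP_27f3b7_al.ResiduallyNilpotent
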